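import Pool.Agent.K3h44.RQ.Stm2
import Pool.Agent.Y546.SG.Nf
import Pool.Agent.Y546.WQ.Wie

/-!
# Project RQ: ramified primes divide the discriminant (brick UNR)
-/

set_option autoImplicit false

namespace Pool.Agent.K3h92.RQ

open NumberField Pool.Agent.K3h44.RQ

/-- if `p` is in the square of a maximal ideal, then `w - τ w` is in the ideal -/
theorem sub_conj_mem {K : Type} [Field K] [NumberField K] (hK : Module.finrank ℚ K = 2)
    {p : ℕ} (hp : p.Prime) (Q : Ideal (𝓞 K)) (hQ : Q.IsMaximal) (hpQ : (p : 𝓞 K) ∈ Q ^ 2)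
    (σ : 𝓞 K →+* 𝓞 K) (w : 𝓞 K) : w - σ w ∈ Q := by
  classical
  have hfr : Module.finrank ℤ (𝓞 K) = 2 := by rw [RingOfIntegers.rank, hK]
  have hN : Ideal.absNorm (Ideal.span {(p : 𝓞 K)}) = p ^ 2 := by
    have h1 := Ideal.absNorm_span_natCast (S := 𝓞 K) p
    rw [h1, hfr]
  have hdvd : Q ^ 2 ∣ Ideal.span {(p : 𝓞 K)} := by
    rw [Ideal.dvd_span_singleton]
    exact hpQ
  have hN2 : Ideal.absNorm Q ^ 2 ∣ p ^ 2 := by
    have := map_dvd Ideal.absNorm hdvd
    rwa [hN, map_pow] at this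
  have hN3 : Ideal.absNorm Q ∣ p := (Nat.pow_dvd_pow_iff two_ne_zero).1 hN2
  have hN4 : Ideal.absNorm Q = p := by
    rcases (Nat.dvd_prime hp).1 hN3 with h | h
    · rw [Ideal.absNorm_eq_one_iff] at h
      exact absurd h hQ.ne_top
    · exact h
  -- the ideal `(p)` is the square of `Q`
  have hsq : Ideal.span {(p : 𝓞 K)} = Q ^ 2 := by
    obtain ⟨I, hI⟩ := hdvd
    have h1 := congrArg Ideal.absNorm hI
    rw [hN, map_mul, map_pow, hN4] at h1
    have h2 : Ideal.absNorm I = 1 := by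
      have hp2 : 0 < p ^ 2 := pow_pos hp.pos 2
      exact Nat.eq_of_mul_eq_mul_left hp2 (by rw [mul_one]; exact h1.symm)
    rw [Ideal.absNorm_eq_one_iff] at h2
    rw [hI, h2, Ideal.mul_top]
  -- the residue field
  have hint : ∀ w : 𝓞 K, ∃ n : ℤ, w - (n : 𝓞 K) ∈ Q := by
    intro w
    have hcard : Nat.card (𝓞 K ⧸ Q) = p := by
      rw [← hN4]
      rfl
    have : Finite (𝓞 K ⧸ Q) := Nat.finite_of_card_ne_zero (by rw [hcard]; exact hp.ne_zero)
    have := Fintype.ofFinite (𝓞 K ⧸ Q)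
    have hcard' : Fintype.card (𝓞 K ⧸ Q) = p := by
      rw [← Nat.card_eq_fintype_card, hcard]
    let e := ZMod.ringEquivOfPrime (𝓞 K ⧸ Q) hp hcard'
    obtain ⟨z, hz⟩ := e.surjective (Ideal.Quotient.mk Q w)
    have : NeZero p := ⟨hp.ne_zero⟩
    refine ⟨(z.val : ℤ), ?_⟩
    rw [← Ideal.Quotient.eq_zero_iff_mem, map_sub, map_intCast, ← hz]
    have h3 : ((z.val : ℤ) : 𝓞 K ⧸ Q) = e ((z.val : ℕ) : ZMod p) := by
      rw [map_natCast]
      push_cast
      rfl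
    rw [h3, ZMod.natCast_zmod_val, sub_self]
  have hconj : ∀ a ∈ Q, σ a ∈ Q := by
    intro a ha
    have h1 : a ^ 2 ∈ Q ^ 2 := Ideal.pow_mem_pow ha 2
    rw [← hsq, Ideal.mem_span_singleton] at h1
    obtain ⟨b, hb⟩ := h1
    have h2 : σ a ^ 2 = (p : 𝓞 K) * σ b := by
      rw [← map_pow, hb, map_mul, map_natCast]
    have h3 : (p : 𝓞 K) ∈ Q := Ideal.pow_le_self two_ne_zero hpQ
    have h4 : σ a ^ 2 ∈ Q := by
      rw [h2]
      exact Q.mul_mem_right _ h3
    exact hQ.isPrime.mem_of_pow_mem 2 h4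
  obtain ⟨n, hn⟩ := hint w
  have h5 := Q.sub_mem hn (hconj _ hn)
  have h6 : w - (n : 𝓞 K) - σ (w - (n : 𝓞 K)) = w - σ w := by
    rw [map_sub, map_intCast]
    ring
  rwa [h6] at h5

/-- **UNR** -/
theorem t_UNR : S_UNR := by
  intro d p hd hsf hp hp2 hpd K _ _ hK s hs P hP
  by_contra hne
  obtain ⟨Q, hQ, hPQ⟩ := Ideal.exists_le_maximal P hne
  have hpQ : (p : 𝓞 K) ∈ Q ^ 2 := Ideal.pow_right_mono hPQ 2 hP
  obtain ⟨σ, -, hT⟩ := Pool.Agent.Y546.SG.exists_conj hK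
  have hsint : IsIntegral ℤ s := by
    refine ⟨Polynomial.X ^ 2 - Polynomial.C (d : ℤ), Polynomial.monic_X_pow_sub_C _ two_ne_zero,
      ?_⟩
    simp [hs]
  obtain ⟨S, hS⟩ : ∃ S : 𝓞 K, (S : K) = s := ⟨⟨s, hsint⟩, rfl⟩
  have hSd : S ^ 2 = (d : 𝓞 K) := by
    apply RingOfIntegers.coe_injective
    rw [map_pow, map_natCast]
    show (S : K) ^ 2 = d
    rw [hS, hs]
  have hσ : σ S ^ 2 = S ^ 2 := by
    rw [← map_pow, hSd, map_natCast]
  have hneg : σ S = -S := by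
    rcases sq_eq_sq_iff_eq_or_eq_neg.1 hσ with h | h
    · exfalso
      have h1 := hT S
      rw [h] at h1
      set m := Algebra.trace ℤ (𝓞 K) S with hm
      have h2 : ((m ^ 2 : ℤ) : 𝓞 K) = ((4 * d : ℤ) : 𝓞 K) := by
        push_cast
        rw [h1, ← hSd]
        ring
      have h3 : m ^ 2 = 4 * (d : ℤ) := by exact_mod_cast h2
      have h4 : Even m := by
        have : Even (m ^ 2) := ⟨2 * d, by rw [h3]; ring⟩
        exact (Int.even_pow.1 this).1
      obtain ⟨k, hk⟩ := h4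
      have h5 : k * k = (d : ℤ) := by
        have : (k + k) ^ 2 = 4 * (d : ℤ) := by rw [← hk, h3]
        nlinarith
      have h6 : k.natAbs * k.natAbs = d := by
        have := congrArg Int.natAbs h5
        rwa [Int.natAbs_mul, Int.natAbs_natCast] at this
      have h7 := hsf k.natAbs ⟨1, by rw [mul_one, h6]⟩
      rw [Nat.isUnit_iff] at h7
      rw [h7] at h6
      omega
    · exact h
  have h1 := sub_conj_mem hK hp Q hQ hpQ σ S
  rw [hneg, sub_neg_eq_add] at h1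
  have h2 : ((4 * d : ℤ) : 𝓞 K) ∈ Q := by
    have h3 : ((4 * d : ℤ) : 𝓞 K) = (S + S) * (S + S) := by
      push_cast
      rw [← hSd]
      ring
    rw [h3]
    exact Q.mul_mem_left _ h1
  refine Pool.Agent.Y546.WQ.int_notMem Q hQ.isPrime p hp (Ideal.pow_le_self two_ne_zero hpQ)
    (4 * d) ?_ h2
  intro h4
  have h5 : p ∣ 4 * d := by exact_mod_cast h4
  have h6 : p ∣ d := by
    rcases (Nat.Prime.dvd_mul hp).1 h5 with h | h
    · exfalso
      have : p ∣ 2 ^ 2 := by simpa using h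
      exact hp2 ((Nat.prime_dvd_prime_iff_eq hp Nat.prime_two).1 (hp.dvd_of_dvd_pow this))
    · exact h
  apply hpd
  unfold dsc
  split_ifs
  · exact h6
  · exact h5

end Pool.Agent.K3h92.RQ
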